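import Pool.Agent.X76.CSP
import Pool.Agent.X76.CircDegen

/-!
# A non-bipartite graph whose circular mixing threshold equals its circular chromatic number

The graph is the complement of the graph formed by two adjacent vertices `a`, `b` and three further
paths between them, of lengths 3, 3 and 4; it has 9 vertices, and both parameters are equal to 5.
-/

set_option autoImplicit false

namespace Pool.Agent.Results.MP_3baeb2_co.NineVertices

open Relation Pool.Agent.X76.CircMix Pool.Agent.X76.CSP

/-- The circular chromatic number: the infimum of `k/q` over all `(k,q)`-colourings. -/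
noncomputable def circChromatic {V : Type*} (G : SimpleGraph V) : ℝ :=
  sInf {x : ℝ | ∃ k q : ℕ, 0 < k ∧ 0 < q ∧ (∃ f : V → ℕ, IsCol G k q f) ∧ x = (k : ℝ) / q}

/-- The circular mixing threshold: the infimum of the rationals `l` such that `G` is
`(k,q)`-mixing for all positive integers `k`, `q` with `k/q ≥ l`. -/
noncomputable def circMixing {V : Type*} (G : SimpleGraph V) : ℝ :=
  sInf {x : ℝ | ∃ l : ℚ, x = (l : ℝ) ∧
    ∀ k q : ℕ, 0 < k → 0 < q → (l : ℝ) ≤ (k : ℝ) / q → Mixing G k q}

/-- adjacency as bit masks -/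
def row (i : ℕ) : ℕ := [222, 377, 249, 311, 175, 350, 423, 85, 106].getD i 0

/-- adjacency -/
def adjB (i j : ℕ) : Bool := (row i).testBit j

/-- The graph with 9 vertices. -/
def G9 : SimpleGraph (Fin 9) where
  Adj i j := adjB i j = true
  symm := ⟨by decide +kernel⟩
  loopless := ⟨by decide +kernel⟩

/-- extension of a map on `Fin 9` to the natural numbers -/
def ex (f : Fin 9 → ℕ) : ℕ → ℕ := fun i => if h : i < 9 then f ⟨i, h⟩ else 0

lemma ex_val (f : Fin 9 → ℕ) (i : ℕ) (h : i < 9) : ex f i = f ⟨i, h⟩ := by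
  simp [ex, h]

lemma ex_update (f : Fin 9 → ℕ) (v : ℕ) (hv : v < 9) (c : ℕ) :
    ex (Function.update f ⟨v, hv⟩ c) = Function.update (ex f) v c := by
  funext i
  by_cases hi : i < 9
  · by_cases hiv : i = v
    · subst hiv
      rw [ex_val _ _ hi, Function.update_self, Function.update_self]
    · rw [ex_val _ _ hi, Function.update_of_ne hiv, ex_val _ _ hi, Function.update_of_ne]
      exact fun h => hiv (congrArg Fin.val h)
  · have hiv : i ≠ v := by omega
    rw [Function.update_of_ne hiv]
    simp [ex, hi]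

lemma pre_set (F : ℕ → ℕ) (v c : ℕ) (hv : v < 9) :
    pre (Function.update F v c) 9 = (pre F 9).set (8 - v) c := by
  interval_cases v <;> simp [pre, Function.update]

lemma pre_getD (F : ℕ → ℕ) (u : ℕ) (hu : u < 9) : (pre F 9).getD (8 - u) 0 = F u := by
  interval_cases u <;> rfl

/-! ### Search certificates -/

/-- constraints for ordinary colourings -/
def conC (i c j d : ℕ) : Bool := !(adjB i j && c == d)

lemma no4 : allSol conC 4 (fun _ => false) 9 0 [] = true := by decide +kernel

lemma not_four (f : Fin 9 → ℕ) : ¬ IsCol G9 4 1 f := by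
  intro hf
  rw [isCol_one] at hf
  have := allSol_spec no4 (ex f) (fun i hi => by rw [ex_val f i hi]; exact hf.1 _)
    (fun i hi t ht => by
      rw [ex_val f i hi, ex_val f t (by omega)]
      unfold conC
      by_cases h : adjB i t = true
      · have := hf.2 ⟨i, hi⟩ ⟨t, by omega⟩ h
        simp [this]
      · simp [h])
  exact absurd this (by simp)

/-- constraints for hamiltonian cycles of the complement -/
def conH (i c j d : ℕ) : Bool :=
  (c != d) && !(i == j + 1 && adjB c d) && !(i == 8 && j == 0 && adjB c d)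

lemma noH : allSol conH 9 (fun _ => false) 9 0 [] = true := by decide +kernel

lemma not_ham (σ : Fin 9 → Fin 9) (hinj : Function.Injective σ)
    (h1 : ∀ (i : ℕ) (hi : i + 1 < 9), adjB (σ ⟨i + 1, hi⟩) (σ ⟨i, by omega⟩) = false)
    (h2 : adjB (σ 8) (σ 0) = false) : False := by
  have := allSol_spec noH (ex (fun i => (σ i : ℕ))) (fun i hi => by
      rw [ex_val _ i hi]; exact (σ _).2)
    (fun i hi t ht => by
      rw [ex_val _ i hi, ex_val _ t (by omega)]
      unfold conH
      have hne : (σ ⟨i, hi⟩ : ℕ) ≠ σ ⟨t, by omega⟩ := by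
        intro h
        have := hinj (Fin.ext h)
        rw [Fin.mk.injEq] at this
        omega
      rw [Bool.and_eq_true, Bool.and_eq_true]
      refine ⟨⟨by simpa using hne, ?_⟩, ?_⟩
      · by_cases hit : i = t + 1
        · subst hit
          have := h1 t hi
          simp [this]
        · simp [hit]
      · by_cases hi8 : i = 8
        · by_cases ht0 : t = 0
          · subst hi8 ht0
            simp [h2]
          · simp [ht0]
        · simp [hi8])
  exact absurd this (by simp)

/-- Colours below `4 q` give a 4-colouring. -/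
lemma four_of_lt {k q : ℕ} (hq : 0 < q) (f : Fin 9 → ℕ) (hf : IsCol G9 k q f)
    (h : ∀ v, f v < 4 * q) : False := by
  apply not_four (fun v => f v / q)
  rw [isCol_iff] at hf
  rw [isCol_one]
  have key : ∀ x y, x + q ≤ y → x / q < y / q := by
    intro x y hxy
    have h1 := Nat.div_le_div_right (c := q) hxy
    rw [Nat.add_div_right x hq] at h1
    omega
  refine ⟨fun v => Nat.div_lt_of_lt_mul (by rw [mul_comm]; exact h v), fun u v huv => ?_⟩
  rcases hf.2 u v huv with h1 | h1
  · exact (key _ _ h1.1).ne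
  · exact (key _ _ h1.1).ne'

/-- Rotating to a colour after a large gap. -/
lemma gap_false {k q : ℕ} (hq : 0 < q) (hk : k < 5 * q) (f : Fin 9 → ℕ) (hf : IsCol G9 k q f)
    (a : ℕ) (ha : a < k) (h : ∀ v, (a ≤ f v ∧ f v < a + 4 * q) ∨ f v + q ≤ a) : False := by
  have h1 := hf.1
  refine four_of_lt hq (rt k (k - a) ∘ f) (isCol_map _ (fun x hx => rt_lt (by omega) hx)
    (fun x y hx hy h => rt_ok (by omega) hx hy h) hf) ?_
  intro v
  have h2 := h1 v
  have h3 := h v
  simp only [Function.comp, rt]
  split_ifs <;> omega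

/-- There is no `(k,q)`-colouring with `k < 5 q`. -/
lemma five_le {k q : ℕ} (hq : 0 < q) (f : Fin 9 → ℕ) (hf : IsCol G9 k q f) : 5 * q ≤ k := by
  by_contra hk
  push Not at hk
  let σ := Tuple.sort f
  have hmono : Monotone (f ∘ σ) := Tuple.monotone_sort f
  have hf' := (isCol_iff f).mp hf
  have hlt := hf'.1
  have hsurj : ∀ v, ∃ j, σ j = v := fun v => σ.surjective v
  refine not_ham σ σ.injective ?_ ?_
  · intro i hi
    by_contra hadj
    rw [Bool.not_eq_false] at hadj
    have h1 := hf'.2 (σ ⟨i + 1, hi⟩) (σ ⟨i, by omega⟩) hadj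
    have h2 : f (σ ⟨i, by omega⟩) ≤ f (σ ⟨i + 1, hi⟩) :=
      hmono (show (⟨i, by omega⟩ : Fin 9) ≤ ⟨i + 1, hi⟩ from by
        rw [Fin.mk_le_mk]; omega)
    have h3 : f (σ ⟨i, by omega⟩) + q ≤ f (σ ⟨i + 1, hi⟩) := by
      unfold ok at h1
      omega
    refine gap_false hq hk f hf (f (σ ⟨i + 1, hi⟩)) (hlt _) ?_
    intro v
    obtain ⟨j, rfl⟩ := hsurj v
    have hj := hlt (σ j)
    by_cases hji : j.1 ≤ i
    · right
      have h4 : f (σ j) ≤ f (σ ⟨i, by omega⟩) := hmono (show j ≤ ⟨i, by omega⟩ from hji)
      omega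
    · left
      have h4 : f (σ ⟨i + 1, hi⟩) ≤ f (σ j) := hmono (show (⟨i + 1, hi⟩ : Fin 9) ≤ j from by
        rw [Fin.le_def]
        show i + 1 ≤ j.1
        omega)
      omega
  · by_contra hadj
    rw [Bool.not_eq_false] at hadj
    have h1 := hf'.2 (σ 8) (σ 0) hadj
    have h2 : f (σ 0) ≤ f (σ 8) := hmono (Fin.zero_le _)
    refine gap_false hq hk f hf (f (σ 0)) (hlt _) ?_
    intro v
    obtain ⟨j, rfl⟩ := hsurj v
    left
    have h3 : f (σ 0) ≤ f (σ j) := hmono (Fin.zero_le _)
    have h4 : f (σ j) ≤ f (σ 8) := hmono (Fin.le_last j)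
    unfold ok at h1
    omega

/-! ### 5-colourings are connected -/

/-- search trees -/
inductive BT
  | E
  | L (x t : ℕ)
  | N (l : BT) (x t : ℕ) (r : BT)

/-- lookup in a search tree -/
def look : BT → ℕ → ℕ
  | .E, _ => 0
  | .L _ t, _ => t
  | .N l x t r, e => if e < x then look l e else if x < e then look r e else t

/-- code of a colouring -/
def enc : List ℕ → ℕ
  | [] => 0
  | d :: ds => d + 5 * enc ds

open BT in
/-- for the code of each 5-colouring: `45 r + 5 v + c`, where `r` is the distance to the root and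
giving the colour `c` to `v` decreases it -/
def T : BT :=
  (N (N (N (N (N (N (N (N (N (N (L 101948 0) 101949 88 (L 101964 174)) 101974 122 (N (L 101988 1054)
  102445 133 E)) 102448 70 (N (N (L 102460 219) 102470 167 E) 102568 1204 (N (L 102569 1258) 102589
  203 E))) 102613 1103 (N (N (N (L 102618 1162) 102940 1159 E) 102944 1210 (N (L 102985 1038) 102990
  1117 E)) 104444 1344 (N (N (L 104449 1293) 104472 1189 E) 104474 1257 (N (L 104492 289) 104940 994
  E)))) 104945 1073 (N (N (N (N (L 104970 1112) 104972 1165 E) 105694 1277 (N (L 105712 314) 105714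
  242 E)) 105737 348 (N (N (L 105742 337) 105960 359 E) 105964 295 (N (L 105985 393) 105990 442 E)))
  107568 174 (N (N (N (L 107573 113) 107597 1148 E) 107617 268 (N (L 107618 212) 107940 394 E))
  107945 443 (N (N (L 107990 357) 107992 295 E) 108198 62 (N (L 108212 1114) 108222 1092 E)))))
  108237 1078 (N (N (N (N (N (L 108238 997) 108460 894 (L 108470 812)) 108485 933 (N (L 108488 985)
  121332 484 E)) 121334 537 (N (N (L 121357 443) 121367 371 E) 123832 1024 (N (L 123847 1071) 123857
  988 E))) 123858 907 (N (N (N (L 133808 989) 133809 908 E) 133858 1022 (N (L 133863 1071) 138808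
  219 E)) 138823 146 (N (N (L 138857 313) 138858 257 E) 148808 359 (N (L 148809 303) 148834 262
  E)))) 148839 191 (N (N (N (N (L 151309 1248) 151319 1296 E) 151332 1134 (N (L 151334 1212) 183836
  359 E)) 183839 276 (N (N (L 183861 393) 183866 442 E) 186336 894 (N (L 186346 822) 186361 933 E)))
  186363 986 (N (N (N (L 192548 809) 192549 753 E) 192584 654 (N (L 192599 711) 192608 834 E))
  193045 898 (N (N (L 193048 835) 193080 814 E) 193095 891 (N (L 193168 719) 193169 648 E))))))
  193209 603 (N (N (N (N (N (N (L 193233 803) 193243 751 (L 193540 764)) 193544 700 (N (L 193605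
  848) 193615 796 E)) 197544 554 (N (N (L 197549 623) 197596 719 E) 197599 661 (N (L 197616 519)
  198040 894 E))) 198045 843 (N (N (N (L 198095 806) 198096 745 E) 199419 606 (N (L 199456 574)
  199459 546 E)) 199481 533 (N (N (L 199491 461) 199580 674 E) 199584 610 (N (L 199605 708) 199615
  756 E)))) 200668 664 (N (N (N (N (L 200673 713) 200721 738 E) 200741 558 (N (L 200743 626) 201040
  709 E)) 201045 758 (N (N (L 201115 671) 201116 610 E) 201923 741 (N (L 201956 849) 201971 786 E)))
  201981 888 (N (N (N (L 201983 871) 202080 984 E) 202095 901 (N (L 202105 988) 202108 925 E))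
  208788 674 (N (N (L 208789 593) 208858 757 E) 208863 706 (N (L 216288 804) 216298 732 E)))))
  216361 898 (N (N (N (N (N (L 216363 841) 223788 854 (L 223789 798)) 223834 687 (N (L 223839 756)
  228789 483 E)) 228794 532 (N (N (L 228836 369) 228839 446 E) 258816 1159 (N (L 258819 1211) 258861
  1048 E))) 258866 1117 (N (N (N (L 263816 394) 263821 443 E) 263866 357 (N (L 263867 276) 271292
  574 E)) 271294 627 (N (N (L 271357 463) 271367 531 E) 278792 709 (N (L 278797 758) 278866 592
  E)))) 278867 671 (N (N (N (N (L 285672 684) 285674 762 E) 285684 779 (N (L 285699 796) 285732 379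
  E)) 286170 807 (N (N (L 286172 745) 286180 894 E) 286195 841 (N (L 286912 529) 286914 582 E)))
  286934 832 (N (N (N (L 286982 427) 286987 486 E) 287160 674 (N (L 287164 610) 287230 757 E))
  287235 706 (N (N (L 288164 654) 288174 662 E) 288196 559 (N (L 288199 626) 288236 964 E)))))))
  288660 759 (N (N (N (N (N (N (N (L 288670 707) 288695 671 (L 288696 610)) 290039 601 (N (L 290056
  944) 290059 871 E)) 290106 977 (N (N (L 290111 1026) 290180 989 E) 290184 925 (N (L 290230 1022)
  290235 1071 E))) 294412 849 (N (N (N (L 294422 787) 294446 517 E) 294486 942 (N (L 294487 886)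
  294660 1069 E)) 294670 1117 (N (N (L 294735 1031) 294736 970 E) 295047 736 (N (L 295056 439)
  295071 486 E)))) 295106 402 (N (N (N (N (L 295107 321) 295180 484 E) 295195 531 (N (L 295230 447)
  295232 385 E)) 301292 594 (N (N (L 301294 672) 301309 758 E) 301319 706 (N (L 303789 688) 303794
  757 E))) 303816 854 (N (N (N (L 303819 796) 336321 133 E) 336323 51 (N (L 336336 219) 336346 167
  E)) 338816 1004 (N (N (L 338821 1073) 338846 1112 E) 338847 1166 (N (L 348797 898) 348798 817
  E))))) 348832 984 (N (N (N (N (N (L 348847 931) 353792 509 (L 353797 578)) 353846 672 (N (L 353847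
  616) 363797 673 E)) 363798 617 (N (N (L 363808 509) 363823 576 E) 366288 759 (N (L 366298 707)
  366321 593 E))) 366323 671 (N (N (N (L 379417 558) 379418 572 E) 379433 473 (N (L 379443 531)
  379457 1058 E)) 379790 672 (N (N (L 379792 610) 379805 758 E) 379815 706 (N (L 380037 943) 380038
  872 E)))) 380058 422 (N (N (N (N (L 380082 1027) 380087 976 E) 380285 988 (N (L 380288 925) 380330
  902 E)) 380335 981 (N (N (L 381913 778) 381918 847 E) 381941 863 (N (L 381943 886) 381961 293 E)))
  382285 903 (N (N (N (L 382290 982) 382315 986 E) 382316 925 (N (L 383163 831) 383181 348 E))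
  383183 401 (N (N (L 383206 307) 383211 236 E) 383305 493 (N (L 383308 430) 383330 527 E))))))
  383335 576 (N (N (N (N (N (N (L 385037 438) 385042 487 (L 385066 917)) 385086 332 (N (L 385087
  401) 385285 483 E)) 385290 532 (N (N (L 385335 446) 385336 385 E) 385667 516 (N (L 385681 1028)
  385691 966 E))) 385706 1067 (N (N (N (L 385707 1121) 385805 1208 E) 385815 1126 (N (L 385830 1212)
  385832 1150 E)) 398948 854 (N (N (L 398949 798) 398964 689 E) 398974 757 (N (L 398988 1144) 399321
  753 E)))) 399323 806 (N (N (N (N (L 399336 634) 399346 712 E) 399568 1294 (N (L 399569 1313)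
  399589 743 E)) 399613 1193 (N (N (L 399618 1252) 399816 1249 E) 399819 1301 (N (L 399861 1128)
  399866 1207 E))) 401444 1419 (N (N (N (L 401449 1383) 401472 1279 E) 401474 1347 (N (L 401492 829)
  401816 1129 E)) 401821 1208 (N (N (L 401846 1247) 401847 1301 E) 402694 1367 (N (L 402712 854)
  402714 782 E))))) 402737 888 (N (N (N (N (N (L 402742 877) 402836 899 E) 402839 836 (N (L 402861
  893) 402866 812 E)) 404568 889 (N (N (L 404573 923) 404597 1238 E) 404617 793 (N (L 404618 852)
  404816 669 E))) 404821 588 (N (N (N (L 404866 707) 404867 761 E) 405198 872 (N (L 405212 1204)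
  405222 1182 E)) 405237 1168 (N (N (L 405238 1107) 405336 984 E) 405346 902 (N (L 405361 1023)
  405363 1076 E)))) 433952 809 (N (N (N (N (L 433954 727) 433977 843 E) 433992 890 (N (L 436452
  1114) 436472 1160 E)) 436477 1078 (N (N (L 436478 997) 446428 1124 E) 446429 1043 (N (L 446478
  1157) 446488 1205 E))) 451428 844 (N (N (N (L 451448 890) 451477 728 E) 451478 807 (N (L 461428
  504) 461429 583 E)) 461454 617 (N (N (L 461464 665) 463929 1338 E) 463944 1385 (N (L 463952 1224)
  463954 1302 E)))))))) 558960 899 (N (N (N (N (N (N (N (N (L 558964 815) 558985 893 (L 558990 822))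
  561460 984 (N (L 561470 912) 561485 1023 E)) 561488 1075 (N (N (L 580148 944) 580149 888 E) 580204
  789 (N (L 580224 845) 580228 924 E))) 580521 1023 (N (N (N (L 580523 971) 580576 904 E) 580596 980
  (N (L 580768 979) 580769 1008 E)) 580829 738 (N (N (L 580853 858) 580868 935 E) 581016 934 (N (L
  581019 986) 581101 813 E)))) 581116 890 (N (N (N (N (L 587644 914) 587649 888 E) 587720 794 (N (L
  587724 850) 587740 834 E)) 588016 589 (N (N (L 588021 668) 588095 761 E) 588096 705 (N (L 590076
  619) 590079 671 E))) 590101 578 (N (N (N (L 590116 495) 590144 965 E) 590200 764 (N (L 590204 700)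
  590225 798 E)) 590240 765 (N (N (L 590768 979) 590773 1028 E) 590845 828 (N (L 590865 873) 590868
  940 E))))) 591016 1024 (N (N (N (N (N (L 591021 1073) 591115 926 (L 591116 985)) 592576 894 (N (L
  592596 810) 592601 933 E)) 592603 986 (N (N (L 592648 960) 592700 939 E) 592720 875 (N (L 592725
  978) 592728 960 E))) 596388 989 (N (N (N (L 596389 908) 596478 912 E) 596488 980 (N (L 606388
  1119) 606398 1047 E)) 606485 1043 (N (N (L 606488 1120) 611388 989 E) 611389 933 (N (L 611454 822)
  611464 890 E)))) 618889 843 (N (N (N (N (L 618894 892) 618960 729 E) 618964 805 (N (L 633940 1249)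
  633944 1300 E)) 633985 1138 (N (N (L 633990 1207) 638940 669 E) 638945 598 (N (L 638990 707)
  638992 760 E))) 658892 934 (N (N (N (L 658894 987) 658977 823 E) 658992 890 (N (L 668892 984)
  668897 913 E)) 668990 907 (N (N (L 668992 985) 673272 774 E) 673274 852 (N (L 673304 939) 673324
  885 E)))))) 673352 739 (N (N (N (N (N (N (L 673646 897) 673647 836 (L 673676 814)) 673696 890 (N
  (L 674512 889) 674514 872 E)) 674554 967 (N (N (L 674602 787) 674612 845 E) 674636 989 (N (L
  674639 926) 674726 902 E))) 674736 980 (N (N (N (L 678264 804) 678274 752 E) 678320 649 (N (L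
  678324 715) 678360 1054 E)) 678636 849 (N (N (L 678646 797) 678695 701 E) 678696 760 (N (L 680676
  1124) 680679 1061 E)))) 680726 1117 (N (N (N (N (L 680736 1035) 680764 830 E) 680800 1079 (N (L
  680804 1005) 680850 1112 E)) 680860 1100 (N (N (L 684512 939) 684522 877 E) 684570 607 (N (L
  684610 1032) 684612 975 E))) 684636 894 (N (N (N (L 684646 812) 684735 986 E) 684736 930 (N (L
  685676 579) 685696 495 E)) 685726 617 (N (N (L 685727 671) 685772 825 E) 685800 624 (N (L 685820
  540) 685850 662 E))))) 685852 715 (N (N (N (N (N (L 688892 729) 688894 807 E) 688929 893 (N (L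
  688944 840) 693889 823 E)) 693894 892 (N (N (L 693940 989) 693944 930 E) 711445 753 (N (L 711448
  805) 711460 644 E))) 711470 712 (N (N (N (L 713940 1139) 713945 1208 E) 713970 1247 (N (L 713972
  1300) 736397 1033 E)) 736398 952 (N (N (L 736452 1119) 736472 1065 E) 743892 824 (N (L 743897 893)
  743970 817 E)))) 743972 895 (N (N (N (N (L 751397 763) 751398 707 E) 751428 599 (N (L 751448 665)
  756388 849 E)) 756398 797 (N (N (L 756445 683) 756448 760 E) 767017 718 (N (L 767018 662) 767053
  563 E))) 767068 620 (N (N (N (L 767077 1148) 767266 807 E) 767267 746 (N (L 767301 893) 767316 840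
  E)) 767637 1033 (N (N (L 767638 962) 767678 512 E) 767702 1082 (N (L 767712 1065) 767761 933
  E))))))) 767763 986 (N (N (N (N (N (N (N (L 767826 812) 767836 890 (L 772013 868)) 772018 937 (N
  (L 772065 1018) 772068 975 E)) 772085 653 (N (N (L 772261 813) 772266 892 E) 772315 986 (N (L
  772316 930) 773801 393 E))) 773803 446 (N (N (N (L 773826 352) 773836 270 E) 773888 920 (N (L
  773925 538) 773928 475 E)) 773950 572 (N (N (L 773960 620) 775137 798 E) 775142 787 (N (L 775190
  1052) 775210 692 E)))) 775212 760 (N (N (N (N (L 775261 843) 775266 892 E) 775335 746 (N (L 775336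
  805) 776301 1073 E)) 776316 990 (N (N (L 776326 1112) 776327 1166 E) 776392 735 (N (L 776425 1163)
  776440 1100 E))) 776450 1202 (N (N (N (L 776452 1185) 786548 944 E) 786549 888 (N (L 786584 789)
  786599 846 E)) 786608 924 (N (N (L 786797 1033) 786798 972 E) 786832 1119 (N (L 786847 1066)
  787168 979 E))))) 787169 1008 (N (N (N (N (N (L 787209 738) 787233 868 (L 787243 936)) 787292 934
  (N (L 787294 987) 787357 813 E)) 787367 891 (N (N (L 791544 939) 791549 888 E) 791596 774 (N (L
  791599 851) 791616 834 E))) 791792 814 (N (N (N (L 791797 893) 791846 837 E) 791847 896 (N (L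
  793332 809) 793334 747 E)) 793357 843 (N (N (L 793367 891) 793419 966 E) 793456 764 (N (L 793459
  681) 793481 798 E)))) 793491 776 (N (N (N (N (L 794668 979) 794673 1028 E) 794721 828 (N (L 794741
  873) 794743 941 E)) 794792 984 (N (N (L 794797 903) 794866 927 E) 794867 986 (N (L 795832 1114)
  795847 1161 E))) 795857 1078 (N (N (N (L 795858 1017) 795923 961 E) 795956 939 (N (L 795971 876)
  795981 978 E)) 795983 961 (N (N (L 809076 674) 809079 591 E) 809101 708 (N (L 809116 755) 811576
  984 E)))))) 811596 910 (N (N (N (N (N (N (L 811601 988) 811603 906 (L 834028 764)) 834029 683 (N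
  (L 834103 796) 834108 845 E)) 841528 1114 (N (N (L 841548 1045) 841601 998 E) 841603 1076 (N (L
  849028 989) 849029 933 E))) 849079 891 (N (N (N (L 849084 820) 854029 843 E) 854044 890 (N (L
  854076 729) 854079 806 E)) 871580 619 (N (N (L 871584 670) 871605 578 E) 871615 506 (N (L 874080
  894) 874095 821 E)))) 874105 933 (N (N (N (N (L 874108 985) 877148 809 E) 877149 753 (N (L 877204
  654) 877224 710 E)) 877228 834 (N (N (L 877397 898) 877398 837 E) 877452 984 (N (L 877472 930)
  877768 719 E))) 877769 658 (N (N (N (L 877829 603) 877853 803 E) 877868 750 (N (L 877892 574)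
  877894 627 E)) 877977 453 (N (N (L 877992 530) 884644 544 E) 884649 623 (N (L 884720 719) 884724
  660 E))))) 884740 519 (N (N (N (N (N (L 884892 499) 884897 578 E) 884970 672 (N (L 884972 615)
  886952 484 E)) 886954 537 (N (N (L 886977 443) 886992 360 E) 887144 605 (N (L 887200 574) 887204
  565 E))) 887225 533 (N (N (N (L 887240 450) 887768 664 E) 887773 713 (N (L 887845 738) 887865 558
  E)) 887868 625 (N (N (L 887892 709) 887897 758 E) 887990 612 (N (L 887992 670) 889452 1024 E))))
  889472 1070 (N (N (N (N (L 889477 988) 889478 927 E) 889648 740 (N (L 889700 849) 889720 785 E))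
  889725 888 (N (N (L 889728 870) 909008 934 E) 909009 988 (N (L 909103 821) 909108 890 E))) 919008
  804 (N (N (N (L 919023 731) 919105 898 E) 919108 840 (N (L 924008 854) 924009 798 E)) 924079 686
  (N (N (L 924084 755) 931509 668 E) 931519 596 (N (L 931580 764) 931584 705 E))))))))) 1021540 934
  (N (N (N (N (N (N (N (N (N (L 1021544 985) 1021605 823 (L 1021615 891)) 1029040 1024 (N (L 1029045
  1073) 1029115 986 E)) 1029116 905 (N (N (L 1034016 764) 1034019 681 E) 1034101 848 (N (L 1034116
  795) 1044016 709 E))) 1044021 758 (N (N (N (L 1044115 591) 1044116 670 E) 1063396 899 (N (L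
  1063399 841) 1063404 744 E)) 1063424 800 (N (N (L 1063476 924) 1063646 927 E) 1063647 986 (N (L
  1063652 904) 1063672 980 E)))) 1065132 934 (N (N (N (N (L 1065134 987) 1065227 811 E) 1065232 890
  (N (L 1065256 979) 1065259 961 E)) 1065279 691 (N (N (L 1065351 866) 1065356 935 E) 1065884 869 (N
  (L 1065899 936) 1065920 1034 E))) 1065924 975 (N (N (N (L 1065980 834) 1066132 814 E) 1066147 891
  (N (L 1066170 987) 1066172 930 E)) 1068152 574 (N (N (L 1068154 627) 1068227 531 E) 1068232 450 (N
  (L 1068384 920) 1068400 719 E))))) 1068404 655 (N (N (N (N (N (L 1068475 751) 1068480 800 (L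
  1075132 984)) 1075147 901 (N (L 1075230 927) 1075232 985 E)) 1075256 849 (N (N (L 1075271 776)
  1075295 1051 E) 1075355 871 (N (L 1075356 885) 1075652 894 E))) 1075672 810 (N (N (N (L 1075726
  987) 1075727 931 E) 1075896 830 (N (L 1075900 1069) 1075920 1100 E)) 1075975 1031 (N (N (L 1075976
  960) 1079016 944 E) 1079019 886 (N (L 1079029 778) 1079044 845 E)))) 1081509 848 (N (N (N (N (L
  1081519 796) 1081540 684 E) 1081544 760 (N (L 1099045 1023) 1099048 950 E)) 1099080 914 (N (N (L
  1099095 981) 1104040 599 E) 1104045 668 (N (L 1104095 706) 1104096 760 E))) 1111521 898 (N (N (N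
  (L 1111523 816) 1111576 824 E) 1111596 890 (N (L 1119016 894) 1119021 843 E)) 1119095 726 (N (N (L
  1119096 805) 1141521 908 E) 1141523 986 (N (L 1141528 1074) 1141548 1020 E)))))) 1144008 824 (N (N
  (N (N (N (N (L 1144023 891) 1144045 988 (L 1144048 930)) 1157141 953 (N (L 1157143 1031) 1157153
  1083 E)) 1157168 1065 (N (N (L 1157201 738) 1157266 987 E) 1157267 931 (N (L 1157277 813) 1157292
  890 E))) 1158257 988 (N (N (N (L 1158258 927) 1158327 1071 E) 1158332 1020 (N (L 1158381 888)
  1158383 871 E)) 1158403 1051 (N (N (L 1158451 786) 1158456 845 E) 1159633 803 (N (L 1159643 751)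
  1159665 648 E)))) 1159668 715 (N (N (N (N (L 1159705 828) 1159757 848 E) 1159767 796 (N (L 1159790
  702) 1159792 760 E)) 1161277 1123 (N (N (L 1161278 1062) 1161327 1116 E) 1161332 1035 (N (L
  1161508 830) 1161525 978 E))) 1161528 1030 (N (N (N (L 1161575 936) 1161580 875 E) 1165757 893 (N
  (L 1165767 811) 1165830 837 E)) 1165832 895 (N (N (L 1165881 888) 1165891 901 E) 1165915 606 (N (L
  1165955 771) 1165956 850 E))))) 1166277 578 (N (N (N (N (N (L 1166292 495) 1166326 672 E) 1166327
  616 (N (L 1166516 965) 1166525 623 E)) 1166540 540 (N (N (L 1166575 661) 1166576 715 E) 1176672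
  794 (N (L 1176674 852) 1176684 914 E))) 1176699 886 (N (N (N (L 1176732 739) 1176797 763 E)
  1176798 707 (N (L 1176808 589) 1176823 666 E)) 1177788 989 (N (N (L 1177789 928) 1177858 902 E)
  1177863 981 (N (L 1177912 889) 1177914 872 E)))) 1177934 967 (N (N (N (N (L 1177982 787) 1177987
  846 E) 1179164 804 (N (L 1179174 752) 1179196 649 E)) 1179199 716 (N (N (L 1179236 1054) 1179288
  849 E) 1179298 797 (N (L 1179321 703) 1179323 761 E))) 1180808 1124 (N (N (N (L 1180809 1063)
  1180858 1157 E) 1180863 1206 (N (L 1181039 831) 1181056 1079 E)) 1181059 1006 (N (N (L 1181106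
  1112) 1181111 1101 E) 1185288 1119 (N (L 1185298 1037) 1185361 1063 E))))))) 1185363 1121 (N (N (N
  (N (N (N (N (L 1185412 939) 1185422 877 (L 1185446 607)) 1185486 1032 (N (L 1185487 976) 1185808
  844 E)) 1185823 891 (N (N (L 1185857 748) 1185858 807 E) 1186047 826 (N (L 1186056 624) 1186071
  551 E))) 1186106 662 (N (N (N (L 1186107 716) 1196676 989 E) 1196679 906 (N (L 1196726 1022)
  1196736 1070 E)) 1201676 484 (N (N (L 1201696 530) 1201726 447 E) 1201727 366 (N (L 1209152 934)
  1209154 987 E)))) 1209227 891 (N (N (N (N (L 1209232 820) 1216652 984 E) 1216672 910 (N (L 1216726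
  907) 1216727 986 E)) 1239152 729 (N (N (L 1239154 807) 1239179 841 E) 1239184 890 (N (L 1241654
  892) 1241664 820 E))) 1241676 989 (N (N (N (L 1241679 931) 1259180 1124 E) 1259184 1040 (N (L
  1259230 1117) 1259235 1046 E)) 1264180 579 (N (N (L 1264195 506) 1264230 617 E) 1264232 670 (N (L
  1267272 704) 1267274 762 E))))) 1267304 769 (N (N (N (N (N (L 1267324 795) 1267352 379 (L 1267397
  673)) 1267398 617 (N (L 1267428 499) 1267448 575 E)) 1268388 674 (N (N (L 1268389 613) 1268478 757
  E) 1268488 705 (N (L 1268512 529) 1268514 582 E))) 1268554 832 (N (N (N (L 1268602 427) 1268612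
  485 E) 1272264 654 (N (L 1272274 662) 1272320 559 E)) 1272324 625 (N (N (L 1272360 964) 1272388
  759 E) 1272398 707 (N (L 1272445 613) 1272448 670 E)))) 1274428 989 (N (N (N (N (L 1274429 928)
  1274478 1022 E) 1274488 1070 (N (L 1274764 600) 1274800 944 E)) 1274804 870 (N (N (L 1274850 977)
  1274860 1025 E) 1278388 804 (N (L 1278398 722) 1278485 898 E))) 1278488 840 (N (N (N (L 1278512
  849) 1278522 787 E) 1278570 517 (N (L 1278610 942) 1278612 885 E)) 1279428 219 (N (N (L 1279448
  135) 1279477 313 E) 1279478 257 (N (L 1279772 735) 1279800 439 E)))))) 1279820 485 (N (N (N (N (N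
  (N (L 1279850 402) 1279852 340 (L 1284132 574)) 1284134 627 (N (L 1284227 461) 1284232 530 E))
  1294132 894 (N (N (L 1294147 821) 1294230 987 E) 1294232 930 (N (L 1314132 819) 1314134 897 E)))
  1314179 821 (N (N (N (L 1314184 890) 1319134 757 E) 1319139 686 (N (L 1319180 854) 1319184 795 E))
  1334160 989 (N (N (L 1334164 905) 1334230 912 E) 1334235 981 (N (L 1341660 894) 1341670 822 E))))
  1341735 931 (N (N (N (N (L 1341736 985) 1346636 674 E) 1346639 591 (N (L 1346726 757) 1346736 705
  E)) 1356636 1069 (N (N (L 1356646 1117) 1356735 951 E) 1356736 1030 (N (L 1360396 999) 1360399 976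
  E))) 1360404 859 (N (N (N (L 1360424 935) 1360476 834 E) 1360521 988 (N (L 1360523 931) 1360528
  814 E)) 1360548 890 (N (N (L 1362008 764) 1362009 703 E) 1362103 846 (N (L 1362108 795) 1362256
  719 E))))) 1362259 636 (N (N (N (N (N (L 1362279 921) 1362351 801 E) 1362356 750 (N (L 1362884
  744) 1362899 801 E)) 1362920 899 (N (N (L 1362924 840) 1362980 924 E) 1363008 1074 (N (L 1363023
  1021) 1363045 928 E))) 1363048 985 (N (N (N (L 1365028 934) 1365029 988 E) 1365103 891 (N (L
  1365108 810) 1365384 690 E)) 1365400 979 (N (N (L 1365404 960) 1365475 936 E) 1365480 855 (N (L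
  1372008 1114) 1372023 1036 E)))) 1372105 1018 (N (N (N (N (L 1372108 1075) 1372256 1069 E) 1372271
  1116 (N (L 1372295 831) 1372355 961 E)) 1372356 1030 (N (N (L 1372528 804) 1372548 720 E) 1372601
  898 (N (L 1372603 841) 1372896 1050 E))) 1372900 849 (N (N (N (L 1372920 765) 1372975 886 E)
  1372976 870 (N (L 1391636 909) 1391639 986 E)) 1391654 912 (N (N (L 1391664 980) 1394134 777 E)
  1394139 846 (N (L 1394160 944) 1394164 885 E)))))))) 1489170 897 (N (N (N (N (N (N (N (N (L
  1489172 815) 1489180 824 (L 1489195 891)) 1491660 849 (N (L 1491670 797) 1491695 761 E)) 1491696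
  680 (N (N (L 1501646 807) 1501647 726 E) 1501676 894 (N (L 1501696 840) 1506636 759 E))) 1506646
  707 (N (N (N (L 1506695 591) 1506696 670 E) 1516646 987 (N (L 1516647 931) 1516652 824 E)) 1516672
  890 (N (N (L 1519132 914) 1519147 981 E) 1519170 907 (N (L 1519172 985) 1547761 928 E)))) 1547763
  986 (N (N (N (N (L 1547778 1072) 1547788 1020 E) 1547886 872 (N (L 1547887 886) 1547902 787 E))
  1547912 845 (N (N (L 1547926 967) 1548257 763 E) 1548258 707 (N (L 1548303 586) 1548308 665 E)))
  1548506 852 (N (N (N (L 1548507 791) 1548527 736 E) 1548551 936 (N (L 1548556 885) 1550258 812 E))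
  1550263 891 (N (N (L 1550285 988) 1550288 930 E) 1550382 877 (N (L 1550387 936) 1550410 962 E)))))
  1550412 975 (N (N (N (N (N (L 1550430 832) 1551277 673 (L 1551278 617)) 1551303 576 (N (L 1551308
  495) 1551632 825 E)) 1551650 762 (N (N (L 1551652 700) 1551675 796 E) 1551680 765 (N (L 1553258
  982) 1553263 901 E))) 1553305 928 (N (N (N (L 1553308 985) 1553506 847 E) 1553511 776 (N (L
  1553535 921) 1553555 871 E)) 1553556 885 (N (N (L 1553778 892) 1553788 810 E) 1553801 988 (N (L
  1553803 931) 1554136 830 E)))) 1554150 937 (N (N (N (N (L 1554160 865) 1554175 976 E) 1554176 1005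
  (N (L 1567292 749) 1567294 807 E)) 1567309 893 (N (N (L 1567319 841) 1567417 718 E) 1567418 662 (N
  (L 1567433 563) 1567443 621 E))) 1567457 1148 (N (N (N (L 1567788 989) 1567789 933 E) 1567834 812
  (N (L 1567839 891) 1568037 1033 E)) 1568038 962 (N (N (L 1568058 512) 1568082 1117 E) 1568087 1066
  (N (L 1569789 813) 1569794 892 E)))))) 1569816 989 (N (N (N (N (N (N (L 1569819 931) 1569913 858
  (L 1569918 937)) 1569941 1033 (N (L 1569943 976) 1569961 653 E)) 1570808 524 (N (N (L 1570809 583)
  1570834 617 E) 1570839 666 (N (L 1571163 921) 1571181 538 E))) 1571183 456 (N (N (N (L 1571206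
  572) 1571211 621 E) 1572789 843 (N (L 1572794 892) 1572836 749 E)) 1572839 806 (N (N (L 1573037
  798) 1573042 787 E) 1573066 1052 (N (L 1573086 692) 1573087 761 E)))) 1573309 1338 (N (N (N (N (L
  1573319 1386) 1573332 1244 E) 1573334 1302 (N (L 1573667 736) 1573681 1163 E)) 1573691 1101 (N (N
  (L 1573706 1202) 1573707 1186 E) 1586801 493 (N (L 1586803 411) 1586826 527 E))) 1586836 575 (N (N
  (N (L 1589301 1208) 1589316 1135 E) 1589326 1212 (N (L 1589327 1131) 1599277 988 E)) 1599278 907
  (N (N (L 1599327 1021) 1599332 1070 E) 1604277 893 (N (L 1604292 820) 1604326 817 E))))) 1604327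
  896 (N (N (N (N (N (L 1614277 763) 1614278 707 E) 1614303 666 (N (L 1614308 595) 1616778 982 E))
  1616788 910 (N (N (L 1616801 908) 1616803 986 E) 1649305 393 (N (L 1649308 445) 1649330 352 E)))
  1649335 281 (N (N (N (L 1651805 1073) 1651815 1001 E) 1651830 1112 (N (L 1651832 1165) 1657892 614
  E)) 1657894 672 (N (N (L 1657929 758) 1657944 705 E) 1658017 558 (N (L 1658018 572) 1658053 473
  E)))) 1658068 530 (N (N (N (N (L 1658077 1058) 1658388 854 E) 1658389 798 (N (L 1658454 677)
  1658464 755 E)) 1658637 943 (N (N (L 1658638 872) 1658678 422 E) 1658702 1027 (N (L 1658712 975)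
  1662889 678 E))) 1662894 757 (N (N (N (L 1662940 854) 1662944 795 E) 1663013 768 (N (L 1663018
  847) 1663065 883 E)) 1663068 885 (N (N (L 1663085 293) 1664428 359 E) 1664429 303 (N (L 1664454
  262) 1664464 180 E))))))) 1664888 830 (N (N (N (N (N (N (N (L 1664925 348) 1664928 400 (L 1664950
  307)) 1664960 225 (N (L 1665889 483) 1665894 532 E)) 1665960 389 (N (N (L 1665964 445) 1666137 438
  E) 1666142 487 (N (L 1666190 917) 1666210 332 E))) 1666212 400 (N (N (N (L 1666929 1248) 1666944
  1295 E) 1666952 1154 (N (L 1666954 1212) 1667392 515 E)) 1667425 1028 (N (N (L 1667440 965)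
  1667450 1067 E) 1667452 1120 (N (L 1674257 1123) 1674258 1042 E)))) 1674327 1046 (N (N (N (N (L
  1674332 1115) 1681757 578 E) 1681767 506 (N (L 1681830 672) 1681832 615 E)) 1689257 673 (N (N (L
  1689258 617) 1689303 506 E) 1689308 575 (N (L 1694258 892) 1694263 821 E))) 1694305 988 (N (N (N
  (L 1694308 930) 1724285 933 E) 1724288 985 (N (L 1724330 822) 1724335 891 E)) 1729285 843 (N (N (L
  1729290 892) 1729335 806 E) 1729336 725 (N (L 1736761 988) 1736763 906 E))))) 1736826 912 (N (N (N
  (N (N (L 1736836 980) 1744261 483 (L 1744266 532)) 1744335 366 (N (L 1744336 445) 1751016 704 E))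
  1751019 761 (N (N (L 1751029 848) 1751044 795 E) 1751141 648 (N (L 1751143 716) 1751153 803 E)))
  1751168 750 (N (N (N (L 1751201 828) 1752008 989 E) 1752009 933 (N (L 1752079 811) 1752084 890 E))
  1752381 978 (N (N (L 1752383 1031) 1752403 831 E) 1752451 876 (N (L 1752456 935) 1753509 768 E))))
  1753519 846 (N (N (N (N (L 1753540 944) 1753544 885 E) 1753633 1103 (N (L 1753643 1066) 1753665
  973 E)) 1753668 1030 (N (N (L 1753705 738) 1755028 854 E) 1755029 798 (N (L 1755079 756) 1755084
  675 E))) 1755508 1050 (N (N (N (L 1755525 888) 1755528 880 E) 1755575 846 (N (L 1755580 785)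
  1759509 843 E)) 1759519 891 (N (N (L 1759580 749) 1759584 805 E) 1759881 623 (N (L 1759891 551)
  1759915 966 E)))))) 1759955 716 (N (N (N (N (N (N (L 1759956 660) 1760029 668 (L 1760044 585))
  1760076 764 (N (L 1760079 706) 1760516 605 E)) 1760525 888 (N (N (L 1760540 935) 1760575 851 E)
  1760576 790 (N (L 1766761 988) 1766763 931 E))) 1766778 822 (N (N (N (L 1766788 890) 1769258 1072
  E) 1769263 1021 (N (L 1769285 908) 1769288 985 E)) 1801790 807 (N (N (L 1801792 725) 1801805 893
  E) 1801815 841 (N (L 1804285 823) 1804290 892 E)))) 1804315 931 (N (N (N (N (L 1804316 985)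
  1814266 672 E) 1814267 591 (N (L 1814301 758) 1814316 705 E)) 1819261 913 (N (N (L 1819266 982)
  1819315 906 E) 1819316 985 (N (L 1829266 682) 1829267 761 E))) 1829277 848 (N (N (N (L 1829292
  795) 1831757 823 E) 1831767 891 (N (L 1831790 987) 1831792 930 E)) 1844636 944 (N (N (L 1844639
  886) 1844654 767 E) 1844664 845 (N (L 1844886 972) 1844887 976 E))))) 1844902 877 (N (N (N (N (N
  (L 1844912 935) 1844926 832 E) 1845132 749 (N (L 1845134 807) 1845179 891 E)) 1845184 840 (N (N (L
  1845506 762) 1845507 681 E) 1845527 826 (N (L 1845551 776) 1845556 795 E))) 1847134 902 (N (N (N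
  (L 1847139 981) 1847160 929 E) 1847164 985 (N (L 1847382 787) 1847387 846 E)) 1847410 872 (N (N (L
  1847412 885) 1847430 967 E) 1848152 839 (N (L 1848154 897) 1848179 891 E)))) 1848184 810 (N (N (N
  (N (L 1848632 735) 1848650 852 E) 1848652 770 (N (L 1848675 886) 1848680 900 E)) 1850134 892 (N (N
  (L 1850139 811) 1850180 989 E) 1850184 930 (N (L 1850506 937) 1850511 856 E))) 1850535 831 (N (N
  (N (L 1850555 1006) 1850556 975 E) 1850654 757 (N (L 1850664 675) 1850676 854 E)) 1850679 796 (N
  (N (L 1851136 920) 1851150 847 E) 1851160 765 (N (L 1851175 886) 1851176 880 E))))))))))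

/-- the root -/
def root : List ℕ := [3, 4, 2, 0, 3, 2, 1, 1, 0]

/-- leaf check: one recolouring step decreases the distance to the root -/
def P5 (cs : List ℕ) : Bool :=
  (cs == root) ||
    (let t := look T (enc cs)
     let v := t / 5 % 9
     let c := t % 5
     (List.range 9).all (fun u => !(adjB v u && cs.getD (8 - u) 0 == c)) &&
       Nat.blt (look T (enc (cs.set (8 - v) c)) / 45) (t / 45))

lemma all5 : allSol conC 5 P5 9 0 [] = true := by decide +kernel

lemma to_root : ∀ (r : ℕ) (f : Fin 9 → ℕ), IsCol G9 5 1 f →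
    look T (enc (pre (ex f) 9)) / 45 ≤ r →
    ∃ g, pre (ex g) 9 = root ∧ IsCol G9 5 1 g ∧ ReflTransGen (Step G9 5 1) f g := by
  intro r
  induction r with
  | zero => ?_
  | succ r ih => ?_
  all_goals
    intro f hf hr
    have hf' := (isCol_one f).mp hf
    have hP := allSol_spec all5 (ex f) (fun i hi => by rw [ex_val f i hi]; exact hf'.1 _)
      (fun i hi t ht => by
        rw [ex_val f i hi, ex_val f t (by omega)]
        unfold conC
        by_cases h : adjB i t = true
        · have := hf'.2 ⟨i, hi⟩ ⟨t, by omega⟩ h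
          simp [this]
        · simp [h])
    unfold P5 at hP
    rw [Bool.or_eq_true] at hP
    rcases hP with hP | hP
    · exact ⟨f, by simpa using hP, hf, .refl⟩
    simp only [Bool.and_eq_true, List.all_eq_true, List.mem_range, Nat.blt_eq] at hP
  · omega
  · obtain ⟨h1, h2⟩ := hP
    generalize ht : look T (enc (pre (ex f) 9)) = t at *
    have hv : t / 5 % 9 < 9 := Nat.mod_lt _ (by norm_num)
    have hc : t % 5 < 5 := Nat.mod_lt _ (by norm_num)
    generalize t / 5 % 9 = v at *
    generalize t % 5 = c at *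
    let g := Function.update f ⟨v, hv⟩ c
    have hg : IsCol G9 5 1 g := by
      rw [isCol_one]
      constructor
      · intro u
        by_cases hu : u = ⟨v, hv⟩
        · subst hu
          simpa [g] using hc
        · simpa [g, hu] using hf'.1 u
      · have key : ∀ u, G9.Adj ⟨v, hv⟩ u → c ≠ f u := by
          intro u hu heq
          have h3 := h1 u.1 u.2
          rw [pre_getD _ _ u.2, ex_val _ _ u.2] at h3
          have h4 : adjB v u.1 = true := hu
          rw [h4] at h3
          simp [heq] at h3
        intro u w huw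
        by_cases hu : u = ⟨v, hv⟩
        · have hw : w ≠ ⟨v, hv⟩ := by
            rintro rfl
            exact huw.ne hu
          subst hu
          simp only [g, Function.update_self, Function.update_of_ne hw]
          exact key w huw
        · by_cases hw : w = ⟨v, hv⟩
          · subst hw
            simp only [g, Function.update_self, Function.update_of_ne hu]
            exact (key u huw.symm).symm
          · simp only [g, Function.update_of_ne hu, Function.update_of_ne hw]
            exact hf'.2 u w huw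
    have hpre : pre (ex g) 9 = (pre (ex f) 9).set (8 - v) c := by
      rw [← pre_set _ _ _ hv, ← ex_update]
    obtain ⟨g', hg1, hg2, hg3⟩ := ih g hg (by rw [hpre]; omega)
    refine ⟨g', hg1, hg2, .head ⟨hf, hg, ⟨v, hv⟩, fun u hu => ?_⟩ hg3⟩
    simp only [g, Function.update_of_ne hu]

lemma mixing5 : Mixing G9 5 1 := by
  intro f g hf hg
  obtain ⟨f', hf1, _, hf3⟩ := to_root _ f hf le_rfl
  obtain ⟨g', hg1, _, hg3⟩ := to_root _ g hg le_rfl
  have e : f' = g' := by
    funext v
    have h1 := pre_getD (ex f') v v.2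
    have h2 := pre_getD (ex g') v v.2
    rw [hf1] at h1
    rw [hg1] at h2
    rw [ex_val _ _ v.2] at h1 h2
    exact h1.symm.trans h2
  rw [e] at hf3
  exact hf3.trans (conn_symm hg3)

lemma mixing_ge (m : ℕ) (hm : 5 ≤ m) : Mixing G9 m 1 := by
  rcases Nat.lt_or_ge 5 m with h | h
  · refine mixing_of_degenerate G9 4 m ?_ (by omega)
    intro v
    refine ⟨Finset.univ.filter (fun u => u < v ∧ adjB v u = true), ?_, ?_⟩
    · revert v
      decide +kernel
    · intro u hu hvu
      rw [Finset.mem_filter]
      exact ⟨Finset.mem_univ _, hu, hvu⟩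
  · obtain rfl : m = 5 := by omega
    exact mixing5

/-- a 5-colouring -/
def c₀ : Fin 9 → ℕ := ![0, 1, 1, 2, 3, 0, 2, 4, 3]

lemma hc₀ : IsCol G9 5 1 c₀ := by
  rw [isCol_one]
  constructor
  · decide
  · have h : ∀ u v : Fin 9, adjB u v = true → c₀ u ≠ c₀ v := by decide +kernel
    exact h

/-- `G9` is `(k,q)`-mixing for all `k/q > 5`. -/
lemma mixing_gt (k q : ℕ) (hq : 0 < q) (hk : 5 * q < k) : Mixing G9 k q :=
  mixing_of 5 (by simp) mixing_ge c₀ hc₀ hq hk

/-! ### `(10,2)`-colourings are not connected -/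

/-- the constraint for adjacent vertices in `(10,2)`-colourings -/
def okB (x y : ℕ) : Bool := (Nat.ble (x + 2) y && Nat.ble (y + 2) (x + 10)) ||
  (Nat.ble (y + 2) x && Nat.ble (x + 2) (y + 10))

lemma okB_iff (x y : ℕ) : okB x y = true ↔ ok 10 2 x y := by
  simp [okB, ok]

/-- constraints for injective `(10,2)`-colourings -/
def conI (i c j d : ℕ) : Bool := (c != d) && (!(adjB i j) || okB c d)

/-- leaf check: moving a vertex `x` to the free colour `p` preserves the parity of its colour -/
def PI (cs : List ℕ) : Bool :=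
  (List.range 9).all fun x => (List.range 10).all fun p =>
    cs.contains p || (List.range 9).any (fun u => adjB x u && !(okB p (cs.getD (8 - u) 0))) ||
      (cs.getD (8 - x) 0 % 2 == p % 2)

lemma allI : allSol conI 10 PI 9 0 [] = true := by decide +kernel

/-- some colour class of positions is fully occupied -/
lemma even_or_odd (f : Fin 9 → ℕ) (hf : IsCol G9 10 2 f) :
    (∀ p < 5, ∃ v, f v = 2 * p) ∨ (∀ p < 5, ∃ v, f v = 2 * p + 1) := by
  by_contra hcon
  push Not at hcon
  obtain ⟨⟨a, ha, ha'⟩, b, hb, hb'⟩ := hcon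
  rw [isCol_iff] at hf
  -- a 4-colouring obtained by pairing consecutive colours
  let φ : ℕ → ℕ := fun x =>
    let x' := (x + 10 - 2 * a) % 10
    let b' := (2 * b + 1 + 10 - 2 * a) % 10
    if x' < b' then (x' - 1) / 2 else (x' - 2) / 2
  have key : ∀ x < 10, ∀ y < 10, x ≠ 2 * a → x ≠ 2 * b + 1 → y ≠ 2 * a → y ≠ 2 * b + 1 →
      ok 10 2 x y → φ x < 4 ∧ φ x ≠ φ y := by
    intro x hx y hy h1 h2 h3 h4 h5
    simp only [φ]
    unfold ok at h5
    interval_cases a <;> interval_cases b <;> split_ifs <;> omega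
  have key2 : ∀ x < 10, x ≠ 2 * a → x ≠ 2 * b + 1 → φ x < 4 := by
    intro x hx h1 h2
    simp only [φ]
    interval_cases a <;> interval_cases b <;> split_ifs <;> omega
  apply not_four (φ ∘ f)
  rw [isCol_one]
  exact ⟨fun v => key2 _ (hf.1 v) (ha' v) (hb' v), fun u v huv =>
    (key _ (hf.1 u) _ (hf.1 v) (ha' u) (hb' u) (ha' v) (hb' v) (hf.2 u v huv)).2⟩

/-- The property that all even colours are used is preserved by recolouring steps. -/
lemma even_step (f g : Fin 9 → ℕ) (h : Step G9 10 2 f g) (he : ∀ p < 5, ∃ v, f v = 2 * p) :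
    ∀ p < 5, ∃ v, g v = 2 * p := by
  classical
  obtain ⟨hf, hg, x, hx⟩ := h
  by_contra hcon
  have ho := (even_or_odd g hg).resolve_left hcon
  push Not at hcon
  obtain ⟨p₀, hp₀, hp₀'⟩ := hcon
  -- the colour of `x` is `2 p₀`
  have hfx : f x = 2 * p₀ := by
    obtain ⟨v, hv⟩ := he p₀ hp₀
    by_cases hvx : v = x
    · rw [← hvx, hv]
    · exact absurd (by rw [← hx v hvx, hv]) (hp₀' v)
  -- all colours but `g x` are used by `f`
  have hused : ∀ c < 10, c ≠ g x → ∃ v, f v = c := by
    intro c hc hcg
    rcases Nat.even_or_odd' c with ⟨p, rfl | rfl⟩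
    · exact he p (by omega)
    · obtain ⟨v, hv⟩ := ho p (by omega)
      have hvx : v ≠ x := by
        rintro rfl
        exact hcg hv.symm
      exact ⟨v, by rw [hx v hvx, hv]⟩
  have hgx : g x < 10 := hg.1 x
  have himg : (Finset.range 10).erase (g x) ⊆ Finset.univ.image f := by
    intro c hc
    rw [Finset.mem_erase, Finset.mem_range] at hc
    obtain ⟨v, hv⟩ := hused c hc.2 hc.1
    exact Finset.mem_image.mpr ⟨v, Finset.mem_univ v, hv⟩
  have hcard := Finset.card_le_card himg
  rw [Finset.card_erase_of_mem (Finset.mem_range.mpr hgx), Finset.card_range] at hcard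
  have hinj : Function.Injective f := by
    have h1 : (Finset.univ.image f).card = (Finset.univ : Finset (Fin 9)).card := by
      apply le_antisymm Finset.card_image_le
      simpa using hcard
    have h2 := Finset.card_image_iff.mp h1
    intro u v huv
    exact h2 (by simp) (by simp) huv
  -- `g x` is not used by `f`
  have hfree : ∀ v, f v ≠ g x := by
    intro v hv
    have : Finset.range 10 ⊆ Finset.univ.image f := by
      intro c hc
      rw [Finset.mem_range] at hc
      by_cases hcg : c = g x
      · exact Finset.mem_image.mpr ⟨v, Finset.mem_univ v, by rw [hv, hcg]⟩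
      · obtain ⟨u, hu⟩ := hused c hc hcg
        exact Finset.mem_image.mpr ⟨u, Finset.mem_univ u, hu⟩
    have h1 := Finset.card_le_card this
    rw [Finset.card_range] at h1
    have h2 : (Finset.univ.image f).card ≤ 9 := by
      simpa using (Finset.card_image_le (s := (Finset.univ : Finset (Fin 9))) (f := f))
    omega
  -- hence `g x` is odd
  have hodd : g x % 2 = 1 := by
    by_contra hev
    obtain ⟨v, hv⟩ := he (g x / 2) (by omega)
    exact hfree v (by omega)
  rw [isCol_iff] at hf hg
  have hP := allSol_spec allI (ex f) (fun i hi => by rw [ex_val f i hi]; exact hf.1 _)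
    (fun i hi t ht => by
      rw [ex_val f i hi, ex_val f t (by omega)]
      unfold conI
      have hne : f ⟨i, hi⟩ ≠ f ⟨t, by omega⟩ := by
        intro h
        have := hinj h
        rw [Fin.mk.injEq] at this
        omega
      rw [Bool.and_eq_true]
      refine ⟨by simpa using hne, ?_⟩
      by_cases h : adjB i t = true
      · have := hf.2 ⟨i, hi⟩ ⟨t, by omega⟩ h
        rw [← okB_iff] at this
        simp [this]
      · simp [h])
  unfold PI at hP
  rw [List.all_eq_true] at hP
  have h1 := hP x.1 (List.mem_range.mpr x.2)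
  rw [List.all_eq_true] at h1
  have h2 := h1 (g x) (List.mem_range.mpr hgx)
  rw [Bool.or_eq_true, Bool.or_eq_true] at h2
  rcases h2 with (h2 | h2) | h2
  · -- `g x` would be used
    rw [List.contains_iff_mem] at h2
    have : ∀ n ≤ 9, ∀ c ∈ pre (ex f) n, ∃ v, f v = c := by
      intro n
      induction n with
      | zero =>
        intro _ c hc
        simp [pre] at hc
      | succ n ih =>
        intro hn c hc
        rw [pre, List.mem_cons] at hc
        rcases hc with hc | hc
        · exact ⟨⟨n, by omega⟩, by rw [hc, ex_val f n (by omega)]⟩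
        · exact ih (by omega) c hc
    obtain ⟨v, hv⟩ := this 9 le_rfl _ h2
    exact hfree v hv
  · rw [List.any_eq_true] at h2
    obtain ⟨u, hu, h3⟩ := h2
    rw [List.mem_range] at hu
    rw [pre_getD _ _ hu, ex_val _ _ hu, Bool.and_eq_true, Bool.not_eq_true'] at h3
    have h4 := hg.2 x ⟨u, hu⟩ h3.1
    have hne : (⟨u, hu⟩ : Fin 9) ≠ x := by
      rintro h
      have h5 : G9.Adj x ⟨u, hu⟩ := h3.1
      exact h5.ne h.symm
    rw [← hx _ hne, ← okB_iff, h3.2] at h4
    exact absurd h4 (by simp)
  · rw [pre_getD _ _ x.2, ex_val _ _ x.2] at h2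
    have h3 : f x % 2 = g x % 2 := by simpa using h2
    omega

lemma not_mixing : ¬ Mixing G9 10 2 := by
  intro h
  have hcol : ∀ a < 2, IsCol G9 10 2 (fun v => 2 * c₀ v + a) := by
    intro a ha
    have h1 := hc₀
    rw [isCol_iff] at h1 ⊢
    refine ⟨fun v => ?_, fun u v huv => ?_⟩
    · have := h1.1 v
      omega
    · have := h1.2 u v huv
      unfold ok at *
      omega
  have hpath := h _ _ (hcol 0 (by norm_num)) (hcol 1 (by norm_num))
  have key : ∀ g, ReflTransGen (Step G9 10 2) (fun v => 2 * c₀ v + 0) g →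
      ∀ p < 5, ∃ v, g v = 2 * p := by
    intro g hg
    induction hg with
    | refl =>
      have : ∀ p : Fin 5, ∃ v, 2 * c₀ v + 0 = 2 * (p : ℕ) := by decide
      intro p hp
      exact this ⟨p, hp⟩
    | tail _ hs ih => exact even_step _ _ hs ih
  obtain ⟨v, hv⟩ := key _ hpath 0 (by norm_num)
  have hv' : 2 * c₀ v + 1 = 2 * 0 := hv
  omega

lemma circChromatic_eq : circChromatic G9 = 5 := by
  unfold circChromatic
  apply le_antisymm
  · refine csInf_le ⟨0, ?_⟩ ⟨5, 1, by norm_num, by norm_num, ⟨c₀, hc₀⟩, by norm_num⟩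
    rintro x ⟨k, q, _, _, _, rfl⟩
    positivity
  · refine le_csInf ⟨_, 5, 1, by norm_num, by norm_num, ⟨c₀, hc₀⟩, rfl⟩ ?_
    rintro x ⟨k, q, hk, hq, ⟨f, hf⟩, rfl⟩
    have h1 := five_le hq f hf
    rw [le_div_iff₀ (by exact_mod_cast hq)]
    exact_mod_cast h1

lemma mem_iff (l : ℚ) : (∀ k q : ℕ, 0 < k → 0 < q → (l : ℝ) ≤ (k : ℝ) / q → Mixing G9 k q) ↔
    5 < l := by
  constructor
  · intro h
    by_contra hl
    push Not at hl
    apply not_mixing
    apply h 10 2 (by norm_num) (by norm_num)
    have : (l : ℝ) ≤ ((5 : ℚ) : ℝ) := by exact_mod_cast hl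
    norm_num at this ⊢
    linarith
  · intro hl k q hk hq hkq
    apply mixing_gt k q hq
    have h1 : ((5 : ℚ) : ℝ) < (l : ℝ) := by exact_mod_cast hl
    have h2 : (5 : ℝ) < (k : ℝ) / q := by
      norm_num at h1
      linarith
    rw [lt_div_iff₀ (by exact_mod_cast hq)] at h2
    exact_mod_cast h2

lemma circMixing_eq : circMixing G9 = 5 := by
  unfold circMixing
  simp only [mem_iff]
  apply le_antisymm
  · apply le_of_forall_pos_le_add
    intro ε hε
    obtain ⟨l, hl1, hl2⟩ := exists_rat_btwn (show (5 : ℝ) < 5 + ε by linarith)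
    refine le_trans (csInf_le (a := (l : ℝ)) ⟨(5 : ℝ), ?_⟩ ⟨l, rfl, by exact_mod_cast hl1⟩) hl2.le
    rintro x ⟨l, rfl, h⟩
    have : ((5 : ℚ) : ℝ) < (l : ℝ) := by exact_mod_cast h
    norm_num at this
    exact this.le
  · refine le_csInf ⟨_, 6, rfl, by norm_num⟩ ?_
    rintro x ⟨l, rfl, h⟩
    have : ((5 : ℚ) : ℝ) < (l : ℝ) := by exact_mod_cast h
    norm_num at this
    exact this.le

lemma not_bipartite : ¬ G9.Colorable 2 := by
  rintro ⟨c⟩
  apply not_four (fun v => (c v : ℕ))
  rw [isCol_one]
  refine ⟨fun v => by have := (c v).2; omega, fun u v huv h => c.valid huv (Fin.ext h)⟩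

/-- **Theorem.** There is a non-bipartite graph, with 9 vertices, whose circular mixing threshold is
equal to its circular chromatic number; both are equal to 5. It has a `(k,q)`-colouring exactly for
`k/q ≥ 5`, it is `(k,q)`-mixing whenever `k/q > 5`, and it is not `(10,2)`-mixing. -/
theorem result : ∃ G : SimpleGraph (Fin 9), ¬ G.Colorable 2 ∧ circMixing G = circChromatic G ∧
    circChromatic G = 5 ∧
    (∀ k q : ℕ, 0 < q → ((∃ f, IsCol G k q f) ↔ 5 * q ≤ k)) ∧
    (∀ k q : ℕ, 0 < q → 5 * q < k → Mixing G k q) ∧ ¬ Mixing G 10 2 := by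
  refine ⟨G9, not_bipartite, by rw [circMixing_eq, circChromatic_eq], circChromatic_eq, ?_,
    mixing_gt, not_mixing⟩
  intro k q hq
  constructor
  · rintro ⟨f, hf⟩
    exact five_le hq f hf
  · intro h
    refine ⟨(fun x => x * q) ∘ c₀, isCol_map (k := 5) (q := 1) _ ?_ ?_ hc₀⟩
    · intro x hx
      interval_cases x <;> omega
    · intro x y hx hy h
      unfold ok at *
      interval_cases x <;> interval_cases y <;> omega

end Pool.Agent.Results.MP_3baeb2_co.NineVertices
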